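import Pool.Agent.Helper71.BM.Basic

/-!
# Module HEAVY: many heavy columns give two long disjoint cycles
-/

set_option autoImplicit false

namespace Pool.Agent.Helper71.BM

open Finset ErdPos

variable {V : Type} {G : SimpleGraph V}

/-- gluing at a common vertex -/
lemma heavy_glue {a b c : V} {l l' : List V} (h : PL G a b l) (h' : PL G b c (b :: l'))
    (hd : List.Disjoint l l') : PL G a c (l ++ l') := by
  cases l' with
  | nil =>
    have : b = c := by
      have := h'.2.1
      simpa using this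
    subst this
    simpa using h
  | cons x l' =>
    obtain ⟨h1, h2, h3, h4⟩ := h'
    rw [List.isChain_cons_cons] at h4
    have h5 : PL G x c (x :: l') := by
      refine ⟨rfl, ?_, ?_, h4.2⟩
      · simpa using h2
      · exact (List.nodup_cons.1 h3).2
    exact h.append h5 h4.1 hd

/-- removing the last vertex -/
lemma heavy_init {a b : V} {l : List V} (h : PL G a b (a :: l ++ [b])) :
    ∃ z, PL G a z (a :: l) ∧ G.Adj z b := by
  obtain ⟨h1, h2, h3, h4⟩ := h
  have hne : a :: l ≠ [] := by simp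
  refine ⟨(a :: l).getLast hne, ⟨rfl, List.getLast?_eq_some_getLast hne, ?_, ?_⟩, ?_⟩
  · exact (List.nodup_append.1 h3).1
  · exact h4.left_of_append
  · rw [List.isChain_append] at h4
    exact h4.2.2 _ (by rw [List.getLast?_eq_some_getLast hne]; rfl) b (by simp)

lemma heavy_infix {x y : V} {l1 l2 l3 : List V} (h : (l1 ++ x :: l2 ++ y :: l3).Nodup)
    (h' : (l1 ++ x :: l2 ++ y :: l3).IsChain G.Adj) : PL G x y (x :: l2 ++ [y]) := by
  have e : l1 ++ x :: l2 ++ y :: l3 = l1 ++ ((x :: l2 ++ [y]) ++ l3) := by simp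
  rw [e] at h h'
  refine ⟨rfl, ?_, ?_, h'.right_of_append.left_of_append⟩
  · rw [List.getLast?_eq_some_iff]
    exact ⟨x :: l2, rfl⟩
  · exact (List.nodup_append.1 (List.nodup_append.1 h).2.1).1

section web
variable [DecidableEq V] {h d : ℕ} {R : ℕ → ℕ → List V} {U : ℕ → Finset V}

omit [DecidableEq V] in
lemma heavy_mem_row {a i : ℕ} (hi : i < d) {v : V} (hv : v ∈ R a i) : v ∈ row R d a := by
  rw [row, List.mem_flatten]
  exact ⟨R a i, List.mem_map.2 ⟨i, List.mem_range.2 hi, rfl⟩, hv⟩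

omit [DecidableEq V] in
lemma heavy_split (s : ℕ) {a b : ℕ} (hab : a < b) (hb : b < d) :
    row R d s = ((List.range a).map (R s)).flatten ++ R s a ++
      ((List.range' (a + 1) (b - a - 1)).map (R s)).flatten ++ R s b ++
      ((List.range' (b + 1) (d - b - 1)).map (R s)).flatten := by
  have h1 : List.range d = List.range a ++ [a] ++ List.range' (a + 1) (b - a - 1) ++ [b] ++
      List.range' (b + 1) (d - b - 1) := by
    have e1 : List.range' (b + 1) (d - b - 1) = List.range' (b + 1) (d - b - 1) := rfl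
    have e2 : [b] ++ List.range' (b + 1) (d - b - 1) = List.range' b (d - b) := by
      have : [b] = List.range' b 1 := by simp
      rw [this, List.range'_append_1]
      congr 1
      omega
    have e3 : List.range' (a + 1) (b - a - 1) ++ List.range' b (d - b) =
        List.range' (a + 1) (d - a - 1) := by
      have : List.range' b (d - b) = List.range' (a + 1 + (b - a - 1)) (d - b) := by
        congr 1
        omega
      rw [this, List.range'_append_1]
      congr 1
      omega
    have e4 : [a] ++ List.range' (a + 1) (d - a - 1) = List.range' a (d - a) := by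
      have : [a] = List.range' a 1 := by simp
      rw [this, List.range'_append_1]
      congr 1
      omega
    have e5 : List.range a ++ List.range' a (d - a) = List.range d := by
      rw [List.range_eq_range', List.range_eq_range']
      have : List.range' a (d - a) = List.range' (0 + a) (d - a) := by rw [zero_add]
      rw [this, List.range'_append_1]
      congr 1
      omega
    rw [List.append_assoc, e2, List.append_assoc, e3, List.append_assoc, e4, e5]
  rw [row, h1]
  simp [List.append_assoc]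

/-- a path along a row -/
lemma heavy_row (hw : Web G h d R U) {s a b : ℕ} (hs : s < h) (hab : a < b) (hb : b < d)
    {x y : V} (hx : x ∈ R s a) (hy : y ∈ R s b) :
    ∃ l, PL G x y l ∧
      (∀ v ∈ l, v ∈ R s a ∨ (∃ j, a < j ∧ j < b ∧ v ∈ R s j) ∨ v ∈ R s b) ∧
      ∀ (J : Finset ℕ) (γ : ℕ), (∀ j ∈ J, a < j ∧ j < b ∧ γ ≤ (R s j).length) →
        J.card * γ ≤ l.length := by
  obtain ⟨p1, p2, hp⟩ := List.append_of_mem hx
  obtain ⟨q1, q2, hq⟩ := List.append_of_mem hy
  set mid := ((List.range' (a + 1) (b - a - 1)).map (R s)).flatten with hmid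
  have hrow := heavy_split (R := R) s hab hb
  rw [hp, hq, ← hmid] at hrow
  have hrow' : row R d s = (((List.range a).map (R s)).flatten ++ p1) ++ x :: (p2 ++ mid ++ q1) ++
      y :: (q2 ++ ((List.range' (b + 1) (d - b - 1)).map (R s)).flatten) := by
    rw [hrow]
    simp [List.append_assoc]
  have hnd := hw.nodup s hs
  have hch := hw.chain s hs
  rw [hrow'] at hnd hch
  have hPL := heavy_infix hnd hch
  refine ⟨_, hPL, ?_, ?_⟩
  · intro v hv
    simp only [List.cons_append, List.mem_cons, List.mem_append, List.not_mem_nil, or_false] at hv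
    have hmidm : v ∈ mid → ∃ j, a < j ∧ j < b ∧ v ∈ R s j := by
      intro hvm
      rw [hmid, List.mem_flatten] at hvm
      obtain ⟨l, hl, hvl⟩ := hvm
      obtain ⟨j, hj, rfl⟩ := List.mem_map.1 hl
      rw [List.mem_range'_1] at hj
      exact ⟨j, by omega, by omega, hvl⟩
    rcases hv with rfl | ((hv | hv) | hv) | rfl
    · exact Or.inl hx
    · exact Or.inl (by rw [hp]; simp [hv])
    · exact Or.inr (Or.inl (hmidm hv))
    · exact Or.inr (Or.inr (by rw [hq]; simp [hv]))
    · exact Or.inr (Or.inr hy)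
  · intro J γ hJ
    have h1 : mid.length = ∑ j ∈ Finset.Ioo a b, (R s j).length := by
      rw [hmid, List.length_flatten, List.map_map]
      have h2 : Finset.Ioo a b = (List.range' (a + 1) (b - a - 1)).toFinset := by
        ext j
        simp only [Finset.mem_Ioo, List.mem_toFinset, List.mem_range'_1]
        omega
      rw [h2, List.sum_toFinset _ (List.nodup_range')]
      rfl
    have h2 : J.card * γ ≤ ∑ j ∈ Finset.Ioo a b, (R s j).length := by
      calc J.card * γ = ∑ _j ∈ J, γ := by simp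
        _ ≤ ∑ j ∈ J, (R s j).length := Finset.sum_le_sum fun j hj => (hJ j hj).2.2
        _ ≤ ∑ j ∈ Finset.Ioo a b, (R s j).length :=
            Finset.sum_le_sum_of_subset fun j hj => by
              rw [Finset.mem_Ioo]
              exact ⟨(hJ j hj).1, (hJ j hj).2.1⟩
    simp only [List.length_append, List.length_cons]
    omega

lemma heavy_col (hw : Web G h d R U) {i j : ℕ} (hi : i < d) (hj : j < d) {v : V} (hv : v ∈ U i)
    (hv' : v ∈ U j) : i = j := by
  by_contra hne
  exact Finset.disjoint_left.1 (hw.udj i hi j hj hne) hv hv'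

lemma heavy_rows (hw : Web G h d R U) {s s' i j : ℕ} (hs : s < h) (hs' : s' < h) (hne : s ≠ s')
    (hi : i < d) (hj : j < d) {v : V} (hv : v ∈ R s i) (hv' : v ∈ R s' j) : False :=
  hw.dj s hs s' hs' hne (heavy_mem_row hi hv) (heavy_mem_row hj hv')

/-- closing a path of row `s` through the row `s - 1` -/
lemma heavy_close {Q : ℕ → ℕ → List V} (hL : Lad G h d R U Q) {s a b L : ℕ} (hs : s + 1 < h)
    (hab : a < b) (hb : b < d) (hL3 : 3 ≤ L)
    (hp : ∀ y0 ∈ R (s + 1) a, ∀ y1 ∈ R (s + 1) b, ∃ l, PL G y0 y1 l ∧ L ≤ l.length ∧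
      ∀ v ∈ l, v ∉ row R d s ∧ (v ∈ R (s + 1) a ∨ v ∈ R (s + 1) b ∨
        ∃ j, a < j ∧ j < b ∧ v ∈ U j)) :
    ∃ z, LC G z ∧ L ≤ z.length ∧ ∀ v ∈ z, ∃ j, a ≤ j ∧ j ≤ b ∧ v ∈ U j := by
  have hw := hL.web
  have ha : a < d := by omega
  obtain ⟨x0, hx0, y0, hy0, hq0⟩ := hL.qc s hs a ha
  obtain ⟨x1, hx1, y1, hy1, hq1⟩ := hL.qc s hs b hb
  obtain ⟨l, hl, hlen, hlv⟩ := hp y0 hy0 y1 hy1
  obtain ⟨r, hr, hrv, -⟩ := heavy_row hw (by omega : s < h) hab hb hx0 hx1
  have hq1' : PL G y1 x1 (y1 :: ((Q s b).reverse ++ [x1])) := by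
    have := hq1.reverse
    simpa using this
  have hr' := hr.reverse
  obtain ⟨r', hr'e⟩ := hr'.eq_cons
  rw [hr'e] at hr'
  obtain ⟨z, hz, hzadj⟩ := heavy_init hq0
  -- facts
  have hrU : ∀ v ∈ r, v ∈ row R d s ∧ ∃ j, a ≤ j ∧ j ≤ b ∧ v ∈ U j := by
    intro v hv
    rcases hrv v hv with h1 | ⟨j, hj1, hj2, h1⟩ | h1
    · exact ⟨heavy_mem_row ha h1, a, le_refl _, hab.le, hw.mem s (by omega) a ha v h1⟩
    · exact ⟨heavy_mem_row (by omega) h1, j, hj1.le, hj2.le,
        hw.mem s (by omega) j (by omega) v h1⟩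
    · exact ⟨heavy_mem_row hb h1, b, hab.le, le_refl _, hw.mem s (by omega) b hb v h1⟩
  have hr'r : ∀ v ∈ r', v ∈ r := by
    intro v hv
    have : v ∈ r.reverse := by rw [hr'e]; simp [hv]
    simpa using this
  have hlQa : ∀ v ∈ l, v ∉ Q s a := by
    intro v hv hvq
    have hvU := hL.qu s hs a ha v hvq
    rcases (hlv v hv).2 with h1 | h1 | ⟨j, hj1, hj2, h1⟩
    · exact hL.qr s hs a ha v hvq (s + 1) (by omega) (heavy_mem_row ha h1)
    · exact absurd (heavy_col hw ha hb hvU (hw.mem _ (by omega) b hb v h1)) (by omega)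
    · exact absurd (heavy_col hw ha (by omega) hvU h1) (by omega)
  have hlQb : ∀ v ∈ l, v ∉ Q s b := by
    intro v hv hvq
    have hvU := hL.qu s hs b hb v hvq
    rcases (hlv v hv).2 with h1 | h1 | ⟨j, hj1, hj2, h1⟩
    · exact absurd (heavy_col hw hb ha hvU (hw.mem _ (by omega) a ha v h1)) (by omega)
    · exact hL.qr s hs b hb v hvq (s + 1) (by omega) (heavy_mem_row hb h1)
    · exact absurd (heavy_col hw hb (by omega) hvU h1) (by omega)
  have hx1r : x1 ∈ row R d s := heavy_mem_row hb hx1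
  -- first gluing
  have c1 : PL G y0 x1 (l ++ ((Q s b).reverse ++ [x1])) := by
    refine heavy_glue hl hq1' ?_
    intro v hv hv'
    simp only [List.mem_append, List.mem_reverse, List.mem_singleton] at hv'
    rcases hv' with hv' | rfl
    · exact hlQb v hv hv'
    · exact (hlv _ hv).1 hx1r
  have c2 : PL G y0 x0 (l ++ ((Q s b).reverse ++ [x1]) ++ r') := by
    refine heavy_glue c1 hr' ?_
    intro v hv hv'
    have hvr := (hrU v (hr'r v hv')).1
    simp only [List.mem_append, List.mem_reverse, List.mem_singleton] at hv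
    rcases hv with hv | hv | rfl
    · exact (hlv _ hv).1 hvr
    · exact hL.qr s hs b hb v hv s (by omega) hvr
    · have := hr'.2.2.1
      rw [List.nodup_cons] at this
      exact this.1 hv'
  have c3 : PL G y0 z (l ++ ((Q s b).reverse ++ [x1]) ++ r' ++ Q s a) := by
    refine heavy_glue c2 hz ?_
    intro v hv hv'
    simp only [List.mem_append, List.mem_reverse, List.mem_singleton] at hv
    rcases hv with (hv | hv | rfl) | hv
    · exact hlQa v hv hv'
    · exact absurd (heavy_col hw ha hb (hL.qu s hs a ha v hv') (hL.qu s hs b hb v hv)) (by omega)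
    · exact hL.qr s hs a ha _ hv' s (by omega) hx1r
    · exact hL.qr s hs a ha _ hv' s (by omega) (hrU v (hr'r v hv)).1
  have hlen2 : L ≤ (l ++ ((Q s b).reverse ++ [x1]) ++ r' ++ Q s a).length := by
    simp only [List.length_append]
    omega
  refine ⟨_, ⟨by omega, y0, z, c3, hzadj⟩, hlen2, ?_⟩
  intro v hv
  simp only [List.mem_append, List.mem_reverse, List.mem_singleton] at hv
  rcases hv with ((hv | hv | rfl) | hv) | hv
  · rcases (hlv v hv).2 with h1 | h1 | ⟨j, hj1, hj2, h1⟩
    · exact ⟨a, le_refl _, hab.le, hw.mem _ (by omega) a ha v h1⟩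
    · exact ⟨b, hab.le, le_refl _, hw.mem _ (by omega) b hb v h1⟩
    · exact ⟨j, hj1.le, hj2.le, h1⟩
  · exact ⟨b, hab.le, le_refl _, hL.qu s hs b hb v hv⟩
  · exact ⟨b, hab.le, le_refl _, hw.mem _ (by omega) b hb _ hx1⟩
  · exact (hrU v (hr'r v hv)).2
  · exact ⟨a, le_refl _, hab.le, hL.qu s hs a ha v hv⟩

/-- zigzag between the rows `s` and `s + 1` -/
lemma heavy_zig {Q : ℕ → ℕ → List V} (hL : Lad G h d R U Q) {s γ : ℕ} (hs : s + 1 < h)
    (c : ℕ → ℕ) : ∀ t : ℕ, (∀ i j, i < j → j < t + 2 → c i < c j) → (∀ i, i < t + 2 → c i < d) →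
    (∀ i, 1 ≤ i → i < t + 1 → γ ≤ (Q s (c i)).length) → ∀ x ∈ R s (c 0),
    ∀ y ∈ R (s + t % 2) (c (t + 1)), ∃ l, PL G x y l ∧ t * γ ≤ l.length ∧
      ∀ v ∈ l, v ∈ R s (c 0) ∨ (∃ j, c 0 < j ∧ j < c (t + 1) ∧
        (v ∈ R s j ∨ v ∈ R (s + 1) j ∨ v ∈ Q s j)) ∨ v ∈ R (s + t % 2) (c (t + 1)) := by
  have hw := hL.web
  intro t
  induction t with
  | zero =>
    intro hc hd _ x hx y hy
    simp only [Nat.zero_mod, add_zero, zero_add] at hy ⊢
    obtain ⟨l, hl, hlv, -⟩ := heavy_row hw (by omega : s < h) (hc 0 1 (by omega) (by omega))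
      (hd 1 (by omega)) hx hy
    refine ⟨l, hl, by omega, fun v hv => ?_⟩
    rcases hlv v hv with h1 | ⟨j, hj1, hj2, h1⟩ | h1
    · exact Or.inl h1
    · exact Or.inr (Or.inl ⟨j, hj1, hj2, Or.inl h1⟩)
    · exact Or.inr (Or.inr h1)
  | succ t ih =>
    intro hc hd hq x hx y hy
    have hcol : c (t + 1) < d := hd (t + 1) (by omega)
    have hlt : c (t + 1) < c (t + 2) := hc (t + 1) (t + 2) (by omega) (by omega)
    have h0lt : c 0 < c (t + 1) := hc 0 (t + 1) (by omega) (by omega)
    -- the piece, oriented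
    have hpiece : ∃ u ∈ R (s + t % 2) (c (t + 1)), ∃ w ∈ R (s + (t + 1) % 2) (c (t + 1)),
        ∃ q, PL G u w (u :: (q ++ [w])) ∧ (∀ v ∈ q, v ∈ Q s (c (t + 1))) ∧
          q.length = (Q s (c (t + 1))).length := by
      obtain ⟨u, hu, w, hw', hp⟩ := hL.qc s hs (c (t + 1)) hcol
      rcases Nat.mod_two_eq_zero_or_one t with ht | ht
      · have ht' : (t + 1) % 2 = 1 := by omega
        rw [ht, ht', add_zero]
        exact ⟨u, hu, w, hw', Q s (c (t + 1)), by simpa using hp, fun v hv => hv, rfl⟩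
      · have ht' : (t + 1) % 2 = 0 := by omega
        rw [ht, ht', add_zero]
        refine ⟨w, hw', u, hu, (Q s (c (t + 1))).reverse, ?_, fun v hv => by simpa using hv,
          by simp⟩
        have := hp.reverse
        simpa using this
    obtain ⟨u, hu, w, hw', q, hp, hqv, hql⟩ := hpiece
    obtain ⟨l, hl, hll, hlv⟩ := ih (fun i j hij hj => hc i j hij (by omega))
      (fun i hi => hd i (by omega)) (fun i hi hi' => hq i hi (by omega)) x hx u hu
    have hst : s + t % 2 < h := by have := Nat.mod_lt t (by omega : 2 > 0); omega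
    have hst' : s + (t + 1) % 2 < h := by have := Nat.mod_lt (t + 1) (by omega : 2 > 0); omega
    have hne : s + t % 2 ≠ s + (t + 1) % 2 := by omega
    obtain ⟨r, hr, hrv, -⟩ := heavy_row hw hst' hlt (hd (t + 2) (by omega)) hw' hy
    obtain ⟨r', rfl⟩ := hr.eq_cons
    have hqU : ∀ v ∈ q, v ∈ U (c (t + 1)) := fun v hv => hL.qu s hs _ hcol v (hqv v hv)
    have hRU : ∀ σ < h, ∀ j < d, ∀ v ∈ R σ j, v ∈ U j := fun σ hσ j hj v hv =>
      hw.mem σ hσ j hj v hv
    -- vertices of `l`: smaller column or the row `s + t % 2`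
    have hlc : ∀ v ∈ l, (∃ j, j < c (t + 1) ∧ v ∈ U j) ∨ v ∈ R (s + t % 2) (c (t + 1)) := by
      intro v hv
      rcases hlv v hv with h1 | ⟨j, hj1, hj2, h1⟩ | h1
      · exact Or.inl ⟨c 0, h0lt, hRU s (by omega) _ (by omega) v h1⟩
      · refine Or.inl ⟨j, hj2, ?_⟩
        rcases h1 with h1 | h1 | h1
        · exact hRU s (by omega) _ (by omega) v h1
        · exact hRU (s + 1) (by omega) _ (by omega) v h1
        · exact hL.qu s hs j (by omega) v h1
      · exact Or.inr h1
    have hrc : ∀ v ∈ w :: r', ∃ j, c (t + 1) ≤ j ∧ j < d ∧ v ∈ R (s + (t + 1) % 2) j := by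
      intro v hv
      rcases hrv v hv with h1 | ⟨j, hj1, hj2, h1⟩ | h1
      · exact ⟨_, le_refl _, hcol, h1⟩
      · exact ⟨j, hj1.le, by have := hd (t + 2) (by omega); omega, h1⟩
      · exact ⟨_, hlt.le, hd (t + 2) (by omega), h1⟩
    have c1 : PL G x w (l ++ (q ++ [w])) := by
      refine heavy_glue hl hp ?_
      intro v hv hv'
      simp only [List.mem_append, List.mem_singleton] at hv'
      rcases hlc v hv with ⟨j, hj, h1⟩ | h1
      · have h2 : v ∈ U (c (t + 1)) := by
          rcases hv' with hv' | rfl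
          · exact hqU v hv'
          · exact hRU _ hst' _ hcol _ hw'
        exact absurd (heavy_col hw (by omega) hcol h1 h2) (by omega)
      · rcases hv' with hv' | rfl
        · exact hL.qr s hs _ hcol v (hqv v hv') _ hst (heavy_mem_row hcol h1)
        · exact heavy_rows hw hst hst' hne hcol hcol h1 hw'
    have c2 : PL G x y (l ++ (q ++ [w]) ++ r') := by
      refine heavy_glue c1 hr ?_
      intro v hv hv'
      obtain ⟨j, hj, hjd, h1⟩ := hrc v (List.mem_cons_of_mem _ hv')
      simp only [List.mem_append, List.mem_singleton] at hv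
      rcases hv with hv | hv | rfl
      · rcases hlc v hv with ⟨j', hj', h2⟩ | h2
        · exact absurd (heavy_col hw (by omega) hjd h2 (hRU _ hst' _ hjd _ h1)) (by omega)
        · exact heavy_rows hw hst hst' hne hcol hjd h2 h1
      · exact hL.qr s hs _ hcol v (hqv v hv) _ hst' (heavy_mem_row hjd h1)
      · have := hr.2.2.1
        rw [List.nodup_cons] at this
        exact this.1 hv'
    refine ⟨_, c2, ?_, ?_⟩
    · simp only [List.length_append]
      have := hq (t + 1) (by omega) (by omega)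
      rw [hql]
      nlinarith
    · have hrow2 : ∀ j, c (t + 1) ≤ j → j < c (t + 2) → ∀ v,
          v ∈ R (s + (t + 1) % 2) j ∨ v ∈ R (s + t % 2) j → ∃ j, c 0 < j ∧ j < c (t + 1 + 1) ∧
            (v ∈ R s j ∨ v ∈ R (s + 1) j ∨ v ∈ Q s j) := by
        intro j hj1 hj2 v hv
        refine ⟨j, by omega, hj2, ?_⟩
        rcases Nat.mod_two_eq_zero_or_one t with ht | ht
        · have ht' : (t + 1) % 2 = 1 := by omega
          rw [ht, ht', add_zero] at hv
          rcases hv with hv | hv
          · exact Or.inr (Or.inl hv)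
          · exact Or.inl hv
        · have ht' : (t + 1) % 2 = 0 := by omega
          rw [ht, ht', add_zero] at hv
          rcases hv with hv | hv
          · exact Or.inl hv
          · exact Or.inr (Or.inl hv)
      intro v hv
      simp only [List.mem_append, List.mem_singleton] at hv
      rcases hv with (hv | hv | rfl) | hv
      · rcases hlv v hv with h1 | ⟨j, hj1, hj2, h1⟩ | h1
        · exact Or.inl h1
        · exact Or.inr (Or.inl ⟨j, hj1, hj2.trans hlt, h1⟩)
        · exact Or.inr (Or.inl (hrow2 _ (le_refl _) hlt v (Or.inr h1)))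
      · exact Or.inr (Or.inl ⟨_, h0lt, hlt, Or.inr (Or.inr (hqv v hv))⟩)
      · exact Or.inr (Or.inl (hrow2 _ (le_refl _) hlt _ (Or.inl hw')))
      · rcases hrv v (List.mem_cons_of_mem _ hv) with h1 | ⟨j, hj1, hj2, h1⟩ | h1
        · exact Or.inr (Or.inl (hrow2 _ (le_refl _) hlt v (Or.inl h1)))
        · exact Or.inr (Or.inl (hrow2 j hj1.le hj2 v (Or.inl h1)))
        · exact Or.inr (Or.inr h1)

/-- one long cycle in a window -/
lemma heavy_win {Q : ℕ → ℕ → List V} (hL : Lad G h d R U Q) {s γ M : ℕ} (hs : s + 1 < h)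
    (hM : 3 ≤ M * γ) (c : ℕ → ℕ) (hc : ∀ i j, i < j → j < 2 * M + 2 → c i < c j)
    (hd : ∀ i, i < 2 * M + 2 → c i < d)
    (hty : (∀ i, i < 2 * M + 2 → γ ≤ (R (s + 1) (c i)).length) ∨
      (s + 2 < h ∧ ∀ i, i < 2 * M + 2 → γ ≤ (Q (s + 1) (c i)).length)) :
    ∃ z, LC G z ∧ M * γ ≤ z.length ∧ ∀ v ∈ z, ∃ j, c 0 ≤ j ∧ j ≤ c (2 * M + 1) ∧ v ∈ U j := by
  have hw := hL.web
  have hb : c (2 * M + 1) < d := hd _ (by omega)
  have hab : c 0 < c (2 * M + 1) := hc _ _ (by omega) (by omega)
  refine heavy_close hL hs hab hb hM ?_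
  intro y0 hy0 y1 hy1
  rcases hty with hty | ⟨hs2, hty⟩
  · obtain ⟨l, hl, hlv, hlen⟩ := heavy_row hw hs hab hb hy0 hy1
    refine ⟨l, hl, ?_, ?_⟩
    · have h1 := hlen ((Finset.range (2 * M)).image (fun i => c (i + 1))) γ ?_
      · rw [Finset.card_image_of_injOn, Finset.card_range] at h1
        · have : M * γ ≤ 2 * M * γ := by nlinarith
          omega
        · intro i hi j hj hij
          simp only [Finset.coe_range, Set.mem_Iio] at hi hj
          simp only at hij
          by_contra hne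
          rcases lt_or_gt_of_ne hne with h2 | h2
          · have := hc (i + 1) (j + 1) (by omega) (by omega)
            omega
          · have := hc (j + 1) (i + 1) (by omega) (by omega)
            omega
      · intro j hj
        obtain ⟨i, hi, rfl⟩ := Finset.mem_image.1 hj
        rw [Finset.mem_range] at hi
        exact ⟨hc _ _ (by omega) (by omega), hc _ _ (by omega) (by omega), hty _ (by omega)⟩
    · intro v hv
      rcases hlv v hv with h1 | ⟨j, hj1, hj2, h1⟩ | h1
      · refine ⟨fun hr => hw.dj (s + 1) hs s (by omega) (by omega) ?_ hr, Or.inl h1⟩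
        exact heavy_mem_row (by omega) h1
      · refine ⟨fun hr => hw.dj (s + 1) hs s (by omega) (by omega) ?_ hr,
          Or.inr (Or.inr ⟨j, hj1, hj2, hw.mem _ hs j (by omega) v h1⟩)⟩
        exact heavy_mem_row (by omega) h1
      · refine ⟨fun hr => hw.dj (s + 1) hs s (by omega) (by omega) ?_ hr, Or.inr (Or.inl h1)⟩
        exact heavy_mem_row hb h1
  · have h2M : 2 * M % 2 = 0 := by omega
    obtain ⟨l, hl, hlen, hlv⟩ := heavy_zig (γ := γ) hL hs2 c (2 * M) (fun i j hij hj => hc i j hij hj)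
      (fun i hi => hd i hi) (fun i _ hi => hty i (by omega)) y0 hy0 y1
      (by rw [h2M, add_zero]; exact hy1)
    rw [h2M, add_zero] at hlv
    refine ⟨l, hl, ?_, ?_⟩
    · have : M * γ ≤ 2 * M * γ := by nlinarith
      omega
    · intro v hv
      rcases hlv v hv with h1 | ⟨j, hj1, hj2, h1⟩ | h1
      · refine ⟨fun hr => hw.dj (s + 1) hs s (by omega) (by omega) ?_ hr, Or.inl h1⟩
        exact heavy_mem_row (by omega) h1
      · have hjd : j < d := by omega
        rcases h1 with h1 | h1 | h1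
        · refine ⟨fun hr => hw.dj (s + 1) hs s (by omega) (by omega) ?_ hr,
            Or.inr (Or.inr ⟨j, hj1, hj2, hw.mem _ hs j hjd v h1⟩)⟩
          exact heavy_mem_row hjd h1
        · refine ⟨fun hr => hw.dj (s + 1 + 1) hs2 s (by omega) (by omega) ?_ hr,
            Or.inr (Or.inr ⟨j, hj1, hj2, hw.mem _ hs2 j hjd v h1⟩)⟩
          exact heavy_mem_row hjd h1
        · refine ⟨fun hr => hL.qr (s + 1) hs2 j hjd v h1 s (by omega) hr,
            Or.inr (Or.inr ⟨j, hj1, hj2, hL.qu _ hs2 j hjd v h1⟩)⟩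
      · refine ⟨fun hr => hw.dj (s + 1) hs s (by omega) (by omega) ?_ hr, Or.inr (Or.inl h1)⟩
        exact heavy_mem_row hb h1

end web

/-- an increasing enumeration -/
lemma heavy_enum (J : Finset ℕ) (K : ℕ) (h : K ≤ J.card) :
    ∃ c : ℕ → ℕ, (∀ i, i < K → c i ∈ J) ∧ ∀ i j, i < j → j < K → c i < c j := by
  refine ⟨fun i => if hi : i < J.card then J.orderEmbOfFin rfl ⟨i, hi⟩ else 0, ?_, ?_⟩
  · intro i hi
    simp only
    rw [dif_pos (by omega)]
    exact Finset.orderEmbOfFin_mem _ _ _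
  · intro i j hij hj
    simp only
    rw [dif_pos (by omega), dif_pos (by omega)]
    exact (J.orderEmbOfFin rfl).strictMono (by exact hij)

theorem st_HEAVY : ST_HEAVY := by
  intro h M
  refine ⟨2 * h * (4 * M + 4) + 1, ?_⟩
  intro V _ _ G d γ R U Q hL hγ hM J hJ hty
  classical
  have hw := hL.web
  -- types
  have htype : ∀ j ∈ J, ∃ p ∈ (Finset.range h ×ˢ (Finset.univ : Finset Bool)), 1 ≤ p.1 ∧
      (p.2 = true → γ ≤ (R p.1 j).length) ∧
      (p.2 = false → p.1 + 1 < h ∧ γ ≤ (Q p.1 j).length) := by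
    intro j hj
    obtain ⟨_, s, hs1, hs2, h1⟩ := hty j hj
    rcases h1 with h1 | ⟨h1, h2⟩
    · exact ⟨(s, true), by simp [hs2], hs1, fun _ => h1, fun h => absurd h (by simp)⟩
    · exact ⟨(s, false), by simp [hs2], hs1, fun h => absurd h (by simp), fun _ => ⟨h1, h2⟩⟩
  choose! f hf using htype
  have hcardT : (Finset.range h ×ˢ (Finset.univ : Finset Bool)).card = 2 * h := by
    simp [mul_comm]
  obtain ⟨p, hp, hcard⟩ := Finset.exists_lt_card_fiber_of_mul_lt_card_of_maps_to
    (n := 4 * M + 4) (fun j hj => (hf j hj).1) (by rw [hcardT]; omega)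
  set J' := J.filter (fun j => f j = p) with hJ'
  obtain ⟨c, hcJ, hc⟩ := heavy_enum J' (4 * M + 4) hcard.le
  have hcd : ∀ i, i < 4 * M + 4 → c i < d := fun i hi =>
    (hty _ (Finset.mem_filter.1 (hcJ i hi)).1).1
  have hcf : ∀ i, i < 4 * M + 4 → 1 ≤ p.1 ∧ p.1 < h ∧
      (p.2 = true → γ ≤ (R p.1 (c i)).length) ∧
      (p.2 = false → p.1 + 1 < h ∧ γ ≤ (Q p.1 (c i)).length) := by
    intro i hi
    obtain ⟨h1, h2⟩ := Finset.mem_filter.1 (hcJ i hi)
    have h3 := hf _ h1
    rw [h2] at h3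
    exact ⟨h3.2.1, by have := h3.1; simp at this; exact this, h3.2.2⟩
  obtain ⟨hp1, hp2, -⟩ := hcf 0 (by omega)
  obtain ⟨s, hs⟩ : ∃ s, p.1 = s + 1 := ⟨p.1 - 1, by omega⟩
  have hs1 : s + 1 < h := by omega
  have hwin : ∀ o, o + (2 * M + 2) ≤ 4 * M + 4 → ∃ z, LC G z ∧ M * γ ≤ z.length ∧
      ∀ v ∈ z, ∃ j, c o ≤ j ∧ j ≤ c (o + (2 * M + 1)) ∧ v ∈ U j := by
    intro o ho
    have h1 := heavy_win hL hs1 hM (fun i => c (o + i)) (fun i j hij hj => hc _ _ (by omega)
      (by omega)) (fun i hi => hcd _ (by omega)) ?_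
    · simpa using h1
    · cases hb : p.2
      · right
        refine ⟨?_, fun i hi => ?_⟩
        · have := ((hcf 0 (by omega)).2.2.2 hb).1
          omega
        · have := ((hcf (o + i) (by omega)).2.2.2 hb).2
          rwa [hs] at this
      · left
        intro i hi
        have := (hcf (o + i) (by omega)).2.2.1 hb
        rwa [hs] at this
  obtain ⟨z, hz, hzl, hzv⟩ := hwin 0 (by omega)
  obtain ⟨z', hz', hzl', hzv'⟩ := hwin (2 * M + 2) (by omega)
  refine ⟨z, z', hz, hz', hzl, hzl', ?_⟩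
  intro v hv hv'
  obtain ⟨j, hj1, hj2, hj3⟩ := hzv v hv
  obtain ⟨j', hj1', hj2', hj3'⟩ := hzv' v hv'
  have hlt : c (0 + (2 * M + 1)) < c (2 * M + 2) := hc _ _ (by omega) (by omega)
  have h1 := hcd (0 + (2 * M + 1)) (by omega)
  have h2 := hcd (2 * M + 2 + (2 * M + 1)) (by omega)
  have := heavy_col hw (by omega) (by omega) hj3 hj3'
  omega

end Pool.Agent.Helper71.BM
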